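import Pool.Agent.Helper893.Tree
import Pool.Agent.Helper893.Plichko

set_option autoImplicit false

namespace Pool.Agent.Results.MP_a4e3f3_an.NoNormingMBasis

open Pool.Agent.Helper893 Cardinal

universe v w

/-- `(e, φ)` is an M-basis of the normed space `X`: a biorthogonal system such that the vectors
`e a` span a dense subspace of `X` and the functionals `φ a` separate the points of `X`. -/
structure IsMBasis (𝕜 : Type) [RCLike 𝕜] {X : Type v} [NormedAddCommGroup X] [NormedSpace 𝕜 X]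
    {A : Type w} (e : A → X) (φ : A → (X →L[𝕜] 𝕜)) : Prop where
  apply_self : ∀ a, φ a (e a) = 1
  apply_ne : ∀ a b, a ≠ b → φ a (e b) = 0
  dense_span : Dense (Submodule.span 𝕜 (Set.range e) : Set X)
  separates : ∀ x : X, (∀ a, φ a x = 0) → x = 0

/-- the functionals `φ a` are `c`-norming: for every `x`, the supremum of `‖ψ x‖` over the `ψ` of
norm at most one in the linear span of the `φ a` is at least `c * ‖x‖`. -/
def IsNorming (𝕜 : Type) [RCLike 𝕜] {X : Type v} [NormedAddCommGroup X] [NormedSpace 𝕜 X]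
    {A : Type w} (c : ℝ) (φ : A → (X →L[𝕜] 𝕜)) : Prop :=
  ∀ x : X, c * ‖x‖ ≤ sSup {t : ℝ | ∃ ψ ∈ Submodule.span 𝕜 (Set.range φ), ‖ψ‖ ≤ 1 ∧ t = ‖ψ x‖}

/-- the normed space `X` admits a norming M-basis: an M-basis (indexed by some type) which is
`c`-norming for some `c > 0`. -/
def AdmitsNormingMBasis (𝕜 : Type) [RCLike 𝕜] (X : Type v) [NormedAddCommGroup X]
    [NormedSpace 𝕜 X] : Prop :=
  ∃ (A : Type w) (e : A → X) (φ : A → (X →L[𝕜] 𝕜)),
    IsMBasis 𝕜 e φ ∧ ∃ c : ℝ, 0 < c ∧ IsNorming 𝕜 c φ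

/-- some closed linear subspace of the normed space `X` admits no norming M-basis -/
def HasSubspaceWithoutNormingMBasis (𝕜 : Type) [RCLike 𝕜] (X : Type v) [NormedAddCommGroup X]
    [NormedSpace 𝕜 X] : Prop :=
  ∃ Z : Submodule 𝕜 X, IsClosed (Z : Set X) ∧ ¬ AdmitsNormingMBasis.{v, w} 𝕜 Z

section Transfer

variable {𝕜 : Type} [RCLike 𝕜] {Γ₀ : Type v} {Γ : Type w} (j : Γ₀ → Γ)
  (hj : Function.Injective j)

include hj in
theorem memℓp_extend (f : L1Sub.L1 𝕜 Γ₀) :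
    Memℓp (Function.extend j (fun γ => f γ) (fun _ => 0) : Γ → 𝕜) 1 := by
  refine memℓp_gen ?_
  have h1 : (fun γ => ‖Function.extend j (fun γ => f γ) (fun _ => 0) γ‖ ^ (1 : ENNReal).toReal) =
      Function.extend j (fun γ => ‖f γ‖) (fun _ => 0) := by
    funext γ
    rw [ENNReal.toReal_one, Real.rpow_one]
    by_cases h : ∃ γ', j γ' = γ
    · obtain ⟨γ', rfl⟩ := h
      rw [hj.extend_apply, hj.extend_apply]
    · rw [Function.extend_apply' _ _ _ h, Function.extend_apply' _ _ _ h, norm_zero]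
  rw [h1]
  exact (summable_extend_zero hj).mpr (L1Sub.summable_norm f)

/-- `ℓ₁(Γ₀)` inside `ℓ₁(Γ)` -/
noncomputable def emb : L1Sub.L1 𝕜 Γ₀ →ₗᵢ[𝕜] L1Sub.L1 𝕜 Γ where
  toFun := fun f => ⟨Function.extend j (fun γ => f γ) (fun _ => 0), memℓp_extend j hj f⟩
  map_add' := fun f g => by
    ext γ
    change Function.extend j (fun γ => f γ + g γ) (fun _ => 0) γ =
      Function.extend j (fun γ => f γ) (fun _ => 0) γ + Function.extend j (fun γ => g γ) (fun _ => 0) γ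
    by_cases h : ∃ γ', j γ' = γ
    · obtain ⟨γ', rfl⟩ := h
      rw [hj.extend_apply, hj.extend_apply, hj.extend_apply]
    · rw [Function.extend_apply' _ _ _ h, Function.extend_apply' _ _ _ h,
        Function.extend_apply' _ _ _ h, add_zero]
  map_smul' := fun c f => by
    ext γ
    change Function.extend j (fun γ => c • f γ) (fun _ => 0) γ =
      c • Function.extend j (fun γ => f γ) (fun _ => 0) γ
    by_cases h : ∃ γ', j γ' = γ
    · obtain ⟨γ', rfl⟩ := h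
      rw [hj.extend_apply, hj.extend_apply]
    · rw [Function.extend_apply' _ _ _ h, Function.extend_apply' _ _ _ h, smul_zero]
  norm_map' := fun f => by
    rw [← L1Sub.tsum_norm f, ← L1Sub.tsum_norm]
    change ∑' γ, ‖Function.extend j (fun γ => f γ) (fun _ => 0) γ‖ = _
    have h1 : (fun γ => ‖Function.extend j (fun γ => f γ) (fun _ => 0) γ‖) =
        Function.extend j (fun γ => ‖f γ‖) (fun _ => 0) := by
      funext γ
      by_cases h : ∃ γ', j γ' = γ
      · obtain ⟨γ', rfl⟩ := h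
        rw [hj.extend_apply, hj.extend_apply]
      · rw [Function.extend_apply' _ _ _ h, Function.extend_apply' _ _ _ h, norm_zero]
    rw [h1]
    exact tsum_extend_zero hj _

end Transfer

/-- a norming M-basis gives projections onto separable subspaces -/
theorem no_norming {𝕜 : Type} [RCLike 𝕜] {I : Type} (ι : I → Set ℕ)
    (hι : Function.Injective ι) (hI : ¬ Countable I) {Y : Type v} [NormedAddCommGroup Y]
    [NormedSpace 𝕜 Y] [CompleteSpace Y] (T : L1Sub.Z 𝕜 ι ≃ₗᵢ[𝕜] Y) {A : Type w} (e : A → Y)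
    (φ : A → (Y →L[𝕜] 𝕜)) (h : IsMBasis 𝕜 e φ) (c : ℝ) (hc : 0 < c) (hn : IsNorming 𝕜 c φ) :
    False := by
  have hcount : ∀ f ∈ (Submodule.span 𝕜 (Set.range φ) : Set (Y →L[𝕜] 𝕜)),
      {m | m ∈ Set.range e ∧ f m ≠ 0}.Countable := by
    intro f hf
    rw [SetLike.mem_coe] at hf
    refine Set.Finite.countable ?_
    induction hf using Submodule.span_induction with
    | mem x hx =>
      obtain ⟨a, rfl⟩ := hx
      refine (Set.finite_singleton (e a)).subset ?_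
      rintro _ ⟨⟨b, rfl⟩, hb⟩
      by_contra hcon
      exact hb (h.apply_ne a b (fun hab => hcon (by rw [hab]; rfl)))
    | zero => simp
    | add f g _ _ hf hg =>
      refine (hf.union hg).subset ?_
      rintro m ⟨hm, hm'⟩
      by_cases h1 : f m = 0
      · right
        refine ⟨hm, fun h2 => hm' ?_⟩
        change f m + g m = 0
        rw [h1, h2, add_zero]
      · exact Or.inl ⟨hm, h1⟩
    | smul t f _ hf =>
      refine hf.subset ?_
      rintro m ⟨hm, hm'⟩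
      refine ⟨hm, fun h2 => hm' ?_⟩
      change t • f m = 0
      rw [h2, smul_zero]
  have hnorm : ∀ x : Y, x ≠ 0 → ∃ f ∈ (Submodule.span 𝕜 (Set.range φ) : Set (Y →L[𝕜] 𝕜)),
      ‖f‖ ≤ 1 ∧ (c / 2) * ‖x‖ ≤ ‖f x‖ := by
    intro x hx
    have hx' : 0 < ‖x‖ := norm_pos_iff.mpr hx
    have h1 := hn x
    have h2 : (c / 2) * ‖x‖ < sSup {t : ℝ | ∃ ψ ∈ Submodule.span 𝕜 (Set.range φ),
        ‖ψ‖ ≤ 1 ∧ t = ‖ψ x‖} := by
      have := mul_pos hc hx'
      linarith
    have h3 : {t : ℝ | ∃ ψ ∈ Submodule.span 𝕜 (Set.range φ), ‖ψ‖ ≤ 1 ∧ t = ‖ψ x‖}.Nonempty :=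
      ⟨0, 0, Submodule.zero_mem _, by simp, by simp⟩
    obtain ⟨t, ⟨ψ, hψ1, hψ2, rfl⟩, ht⟩ := exists_lt_of_lt_csSup h3 h2
    exact ⟨ψ, hψ1, hψ2, ht.le⟩
  obtain ⟨R, C, B, hB, hR, hRB, hRB', hS⟩ := Plichko.exists_proj (𝕜 := 𝕜) (Set.range e)
    h.dense_span _ (c / 2) (by positivity) hnorm hcount (T '' L1Sub.SS 𝕜 ι)
    ((L1Sub.SS_countable 𝕜 ι).image T)
  let R' : L1Sub.Z 𝕜 ι →ₗ[𝕜] L1Sub.Z 𝕜 ι :=
    (T.symm.toLinearEquiv : Y →ₗ[𝕜] L1Sub.Z 𝕜 ι) ∘ₗ R ∘ₗ
      (T.toLinearEquiv : L1Sub.Z 𝕜 ι →ₗ[𝕜] Y)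
  have hR' : ∀ z, R' z = T.symm (R (T z)) := fun z => rfl
  refine L1Sub.main_theorem ι hι hI R' C ?_ (T.symm '' B) (hB.image _) ?_ ?_
  · intro z
    rw [hR', LinearIsometryEquiv.norm_map]
    have := hR (T z)
    rwa [LinearIsometryEquiv.norm_map] at this
  · intro z
    rw [hR']
    have h1 : Plichko.CS 𝕜 B ≤ ((Submodule.span 𝕜 (T.symm '' B)).topologicalClosure).comap
        (T.symm.toLinearEquiv : Y →ₗ[𝕜] L1Sub.Z 𝕜 ι) := by
      refine Plichko.CS_le ?_ ?_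
      · exact (Submodule.isClosed_topologicalClosure _).preimage T.symm.continuous
      · intro b hb
        exact Submodule.le_topologicalClosure _ (Submodule.subset_span ⟨b, hb, rfl⟩)
    exact h1 (hRB (T z))
  · intro z hz
    rw [hR', hRB' _ (hS ⟨z, hz, rfl⟩), LinearIsometryEquiv.symm_apply_apply]

/-- For every uncountable set `Γ` there is a closed subspace of `ℓ₁(Γ)` (over `ℝ` or `ℂ`) none of
whose M-bases is norming. -/
theorem result (𝕜 : Type) [RCLike 𝕜] (Γ : Type v) [Uncountable Γ] :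
    HasSubspaceWithoutNormingMBasis.{v, w} 𝕜 (lp (fun _ : Γ => 𝕜) 1) := by
  -- an index set of size aleph one
  have h1 : ℵ₁ ≤ #(Set ℕ) := by
    rw [Cardinal.mk_set, Cardinal.mk_nat]
    exact Cardinal.aleph_one_le_continuum
  obtain ⟨S, hS⟩ := Cardinal.le_mk_iff_exists_set.mp h1
  have hunc : ¬ Countable S := by
    intro h
    have h2 := Cardinal.mk_le_aleph0_iff.mpr h
    rw [hS] at h2
    exact absurd h2 (not_le.mpr (Cardinal.aleph0_lt_aleph_one))
  have hcard : #(L1Sub.Gam S) ≤ ℵ₁ := by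
    rw [Cardinal.mk_sum, Cardinal.lift_id, Cardinal.lift_id]
    refine Cardinal.add_le_of_le (Cardinal.aleph0_le_aleph 1) ?_ ?_
    · exact (Cardinal.mk_le_aleph0_iff.mpr inferInstance).trans (Cardinal.aleph0_le_aleph 1)
    · rw [Cardinal.mk_prod, Cardinal.lift_id, Cardinal.lift_id, hS]
      refine (mul_le_mul' le_rfl (Cardinal.mk_le_aleph0_iff.mpr (inferInstance :
        Countable (List Bool)))).trans ?_
      refine (mul_le_mul' le_rfl (Cardinal.aleph0_le_aleph 1)).trans ?_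
      rw [Cardinal.mul_eq_self (Cardinal.aleph0_le_aleph 1)]
  have h3 : ℵ₁ ≤ #Γ := by
    rw [← Cardinal.succ_aleph0]
    exact Order.succ_le_of_lt (Cardinal.aleph0_lt_mk_iff.mpr inferInstance)
  have h4 : Cardinal.lift.{v} #(L1Sub.Gam S) ≤ Cardinal.lift.{0} #Γ := by
    refine (Cardinal.lift_le.mpr hcard).trans ?_
    rw [Cardinal.lift_aleph, Ordinal.lift_one, Cardinal.lift_uzero]
    exact h3
  obtain ⟨j⟩ := Cardinal.lift_mk_le'.mp h4
  let J : L1Sub.L1 𝕜 (L1Sub.Gam S) →ₗᵢ[𝕜] L1Sub.L1 𝕜 Γ :=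
    emb (𝕜 := 𝕜) (fun γ : L1Sub.Gam S => j γ) j.injective
  let Y : Submodule 𝕜 (L1Sub.L1 𝕜 Γ) := (L1Sub.Z 𝕜 (Subtype.val : S → Set ℕ)).map J.toLinearMap
  have hYc : IsClosed (Y : Set (L1Sub.L1 𝕜 Γ)) := by
    rw [Submodule.map_coe]
    exact J.isometry.isClosedEmbedding.isClosedMap _ (L1Sub.isClosed_Z 𝕜 _)
  refine ⟨Y, hYc, ?_⟩
  rintro ⟨A, e, φ, he, c, hc, hn⟩
  have hcs : CompleteSpace Y := hYc.completeSpace_coe
  let T : L1Sub.Z 𝕜 (Subtype.val : S → Set ℕ) ≃ₗᵢ[𝕜] Y :=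
    { Submodule.equivMapOfInjective J.toLinearMap J.injective _ with
      norm_map' := fun z => J.norm_map z }
  exact no_norming (Subtype.val : S → Set ℕ) Subtype.val_injective hunc T e φ he c hc hn

end Pool.Agent.Results.MP_a4e3f3_an.NoNormingMBasis
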